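import Pool.Agent.Helper28.Sus.Goals2

/-!
# Sustained space: the functions of the machine on numbers are computed in linear space
-/

namespace Pool.Agent.Helper56.Sus

open Pool.Agent.Helper65.LinSpace Pool.Agent.Helper78.Mpc Pool.Agent.Helper28.Ram
  Pool.Agent.Helper28.Sus Finset
open Pool.Agent.Helper59.Ram (LS_accN)

theorem lsp_comp {α β : Type} [Ctx α] [Ctx β] {P : α → Prm} {C : α → ℕ} (h : LSP P C)
    {π : β → α} (hπ : LS π) : LSP (fun b => P (π b)) (fun b => C (π b)) where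
  eA := LS.comp (g := fun z => (P z).eA) h.eA hπ
  eN := LS.comp (g := fun z => (P z).eN) h.eN hπ
  eW := LS.comp (g := fun z => (P z).eW) h.eW hπ
  eK := LS.comp (g := fun z => (P z).eK) h.eK hπ
  eG := LS.comp (g := fun z => (P z).eG) h.eG hπ
  eR := LS.comp (g := fun z => (P z).eR) h.eR hπ
  ini := LS.comp (g := fun z => (P z).ini) h.ini hπ
  B0 := LS.comp (g := fun z => (P z).B0) h.B0 hπ
  st := LS.comp (g := fun z => (P z).st) h.st hπ
  Λ := LS.comp (g := fun z => (P z).Λ) h.Λ hπ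
  β := LS.comp (g := fun z => (P z).β) h.β hπ
  B := LS.comp (g := fun z => (P z).B) h.B hπ
  x := LS.comp (g := fun z => (P z).x) h.x hπ
  y := LS.comp (g := fun z => (P z).y) h.y hπ
  S := LS.comp (g := fun z => (P z).S) h.S hπ
  Z := LS.comp (g := fun z => (P z).Z) h.Z hπ
  u := LS.comp (g := fun z => (P z).u) h.u hπ
  V := LS.comp (g := fun z => (P z).V) h.V hπ
  b := LS.comp (g := fun z => (P z).b) h.b hπ
  I := LS.comp (g := fun z => (P z).I) h.I hπ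
  E := LS.comp (g := fun z => (P z).E) h.E hπ
  hC := LS.comp (g := C) h.hC hπ
  bβ0 := fun b => h.bβ0 (π b)
  bβ := fun b => h.bβ (π b)
  bS := fun b => h.bS (π b)
  bZ := fun b => h.bZ (π b)
  bV := fun b => h.bV (π b)
  bu := fun b => h.bu (π b)
  bb := fun b => h.bb (π b)
  bcz := fun b => h.bcz (π b)

section

variable {α : Type} [Ctx α] {P : α → Prm} {C : α → ℕ}

theorem ls_pow2 {f : α → ℕ} (h : LSP P C) (hf : LS f) (hb : ∀ z, 2 ^ f z ≤ C z) :
    LS fun z => 2 ^ f z :=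
  LS.pow_of_le (f := fun _ => 2) (LS.const 2) hf h.hC hb

theorem bS1 (h : LSP P C) (z : α) : 2 ^ ((P z).S + 1) ≤ C z :=
  (Nat.pow_le_pow_right (by norm_num) (by omega)).trans (h.bS z)

theorem bZ1 (h : LSP P C) (z : α) : 2 ^ ((P z).Z + 1) ≤ C z :=
  (Nat.pow_le_pow_right (by norm_num) (by omega)).trans (h.bZ z)

theorem b11 (h : LSP P C) (z : α) : 2 ^ (1 + 1) ≤ C z :=
  (Nat.pow_le_pow_right (by norm_num) (by omega)).trans (h.bS z)

theorem ls_pS (h : LSP P C) : LS fun z => 2 ^ ((P z).S + 1) :=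
  ls_pow2 h (LS.add h.S (LS.const 1)) (bS1 h)

theorem ls_fA (h : LSP P C) {q : α → ℕ} (hq : LS q) : LS fun z => (P z).fA (q z) := by
  unfold Prm.fA
  exact LS.fnN h.eA h.S h.Λ h.β h.B hq h.hC h.bβ0 h.bβ (bS1 h)

theorem ls_fK (h : LSP P C) {q : α → ℕ} (hq : LS q) : LS fun z => (P z).fK (q z) := by
  unfold Prm.fK
  exact LS.mod (LS.fnN (S := fun _ => 1) h.eK (LS.const 1) h.Λ h.β h.B hq h.hC h.bβ0 h.bβ
    (b11 h)) (LS.const 2)

theorem ls_fG (h : LSP P C) {q : α → ℕ} (hq : LS q) : LS fun z => (P z).fG (q z) := by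
  unfold Prm.fG
  exact LS.mod (LS.fnN (S := fun _ => 1) h.eG (LS.const 1) h.Λ h.β h.B hq h.hC h.bβ0 h.bβ
    (b11 h)) (LS.const 2)

theorem ls_fR (h : LSP P C) {q x : α → ℕ} (hq : LS q) (hx : LS x) :
    LS fun z => (P z).fR (q z) (x z) := by
  unfold Prm.fR
  have hc : LS fun z => catN (sdN (q z)) (sdN (x z)) := by fun_prop
  exact LS.mod (LS.fnN (S := fun _ => 1) h.eR (LS.const 1) h.Λ h.β h.B hc h.hC h.bβ0 h.bβ
    (b11 h)) (LS.const 2)

theorem ls_fN (h : LSP P C) {q b v : α → ℕ} (hq : LS q) (hb : LS b) (hv : LS v) :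
    LS fun z => (P z).fN (q z) (b z) (v z) := by
  unfold Prm.fN
  have hK := ls_fK h hq
  have hc : LS fun z => catN (sdN (q z)) (2 * v z + (P z).fK (q z) * b z) := by fun_prop
  exact LS.ifz hv (LS.const 0) (LS.fnN h.eN h.S h.Λ h.β h.B hc h.hC h.bβ0 h.bβ (bS1 h))

theorem ls_fW (h : LSP P C) {q x c : α → ℕ} (hq : LS q) (hx : LS x) (hc : LS c) :
    LS fun z => (P z).fW (q z) (x z) (c z) := by
  unfold Prm.fW
  have hR := ls_fR h hq hx
  have hc : LS fun z => catN (sdN (q z)) (catN (sdN (x z)) (ifz ((P z).fR (q z) (x z)) (c z)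
    1)) := by fun_prop
  exact LS.fnN h.eW h.Z h.Λ h.β h.B hc h.hC h.bβ0 h.bβ (bZ1 h)

theorem ls_ro {x : α → ℕ} (hx : LS x) : LS fun z => Prm.ro (x z) := by
  unfold Prm.ro
  exact LS.mul (LS.lt01 (LS.const 1) hx) (LS.sub (LS.const 1) (LS.mod hx (LS.const 2)))

theorem ls_ix {x : α → ℕ} (hx : LS x) : LS fun z => Prm.ix (x z) := by
  unfold Prm.ix
  have h1 : LS fun z => x z / 2 := LS.div hx (LS.const 2)
  exact LS.sub h1 (LS.pow_log h1)

theorem ls_enc (h : LSP P C) {q p t : α → ℕ} (hq : LS q) (hp : LS p) (ht : LS t) :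
    LS fun z => (P z).enc (q z) (p z) (t z) := by
  unfold Prm.enc
  exact LS.add (LS.const 2) (LS.add hq (LS.mul (ls_pS h)
    (LS.add hp (LS.mul (LS.add h.u (LS.const 1)) ht))))

theorem ls_dq (h : LSP P C) {Q : α → ℕ} (hQ : LS Q) : LS fun z => (P z).dq (Q z) := by
  unfold Prm.dq
  exact LS.mod (LS.sub hQ (LS.const 2)) (ls_pS h)

theorem ls_dp (h : LSP P C) {Q : α → ℕ} (hQ : LS Q) : LS fun z => (P z).dp (Q z) := by
  unfold Prm.dp
  exact LS.mod (LS.div (LS.sub hQ (LS.const 2)) (ls_pS h)) (LS.add h.u (LS.const 1))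

theorem ls_dt (h : LSP P C) {Q : α → ℕ} (hQ : LS Q) : LS fun z => (P z).dt (Q z) := by
  unfold Prm.dt
  exact LS.div (LS.div (LS.sub hQ (LS.const 2)) (ls_pS h)) (LS.add h.u (LS.const 1))

theorem ls_bd (h : LSP P C) : LS fun z => (P z).bd := by
  unfold Prm.bd
  exact LS.mul (ls_pS h) (LS.mul h.I (ls_pow2 h h.b h.bb))

theorem ls_en (h : LSP P C) {D e : α → ℕ} (hD : LS D) (he : LS e) :
    LS fun z => (P z).en (D z) (e z) := by
  unfold Prm.en
  exact LS.dig (ls_bd h) hD he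

theorem ls_lk (h : LSP P C) {D x : α → ℕ} (hD : LS D) (hx : LS x) :
    LS fun z => (P z).lk (D z) (x z) := by
  unfold Prm.lk
  refine LS.sum_le (N := fun z => (P z).E) (B := fun z => D z * C z)
    (f := fun z e => eq01 ((P z).en (D z) e % 2 ^ ((P z).S + 1)) (x z) *
      ((P z).en (D z) e / 2 ^ ((P z).S + 1) / (P z).I *
        2 ^ min ((P z).b * ((P z).en (D z) e / 2 ^ ((P z).S + 1) % (P z).I)) ((P z).Z + 1)))
    ?_ h.E (LS.mul hD h.hC) ?_
  · have h' : LSP (fun p : α × ℕ => P p.1) (fun p => C p.1) :=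
      lsp_comp h (π := fun p : α × ℕ => p.1) LS.fst
    have hen : LS fun p : α × ℕ => (P p.1).en (D p.1) p.2 :=
      ls_en h' (LS.comp (g := D) hD LS.fst) LS.snd
    have hx' : LS fun p : α × ℕ => x p.1 := LS.comp (g := x) hx LS.fst
    have hS := ls_pS h'
    have hmin : LS fun p : α × ℕ => min ((P p.1).b * ((P p.1).en (D p.1) p.2 /
        2 ^ ((P p.1).S + 1) % (P p.1).I)) ((P p.1).Z + 1) :=
      LS.min (LS.mul h'.b (LS.mod (LS.div hen hS) h'.I)) (LS.add h'.Z (LS.const 1))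
    have hpow := ls_pow2 h' hmin (fun p => (Nat.pow_le_pow_right (by norm_num)
      (min_le_right _ _)).trans (bZ1 h p.1))
    exact LS.mul (LS.eq01 (LS.mod hen hS) hx') (LS.mul (LS.div (LS.div hen hS) h'.I) hpow)
  · intro z e _
    have h1 : eq01 ((P z).en (D z) e % 2 ^ ((P z).S + 1)) (x z) ≤ 1 := by
      unfold eq01
      split_ifs <;> omega
    have h2 : (P z).en (D z) e / 2 ^ ((P z).S + 1) / (P z).I ≤ D z := by
      refine (Nat.div_le_self _ _).trans ((Nat.div_le_self _ _).trans ?_)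
      unfold Prm.en dig
      exact (Nat.mod_le _ _).trans (Nat.div_le_self _ _)
    have h3 : 2 ^ min ((P z).b * ((P z).en (D z) e / 2 ^ ((P z).S + 1) % (P z).I))
        ((P z).Z + 1) ≤ C z :=
      (Nat.pow_le_pow_right (by norm_num) (min_le_right _ _)).trans (bZ1 h z)
    calc _ ≤ 1 * (D z * C z) := Nat.mul_le_mul h1 (Nat.mul_le_mul h2 h3)
      _ = _ := one_mul _

theorem ls_cq (h : LSP P C) {c : α → ℕ} (hc : LS c) : LS fun z => (P z).cq (c z) := by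
  unfold Prm.cq
  exact LS.ifz (LS.eq01 hc (LS.const 1)) (LS.mod (LS.sub hc (LS.const 2)) (ls_pS h))
    (LS.capN h.S h.st)

theorem ls_cl (h : LSP P C) {c x : α → ℕ} (hc : LS c) (hx : LS x) :
    LS fun z => (P z).cl (c z) (x z) := by
  unfold Prm.cl
  exact LS.ifz (LS.eq01 hc (LS.const 1))
    (LS.capN h.Z (ls_lk h (LS.div (LS.sub hc (LS.const 2)) (ls_pS h)) hx)) (LS.const 1)

theorem ls_cm (h : LSP P C) {c x : α → ℕ} (hc : LS c) (hx : LS x) :
    LS fun z => (P z).cm (c z) (x z) := by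
  unfold Prm.cm
  have hi := ls_ix hx
  have hX := h.x
  have hY := h.y
  have hd : LS fun z => 3 * letN (P z).x (Prm.ix (x z)) + letN (P z).y (Prm.ix (x z)) := by
    fun_prop
  exact LS.capN h.Z (LS.ifz (ls_ro hx) (ls_cl h hc hx) (LS.dig h.B0 h.ini hd))

theorem ls_wA (h : LSP P C) {τ a Q : α → ℕ} (hτ : LS τ) (ha : LS a) (hQ : LS Q) :
    LS fun z => (P z).wA (τ z) (a z) (Q z) := by
  unfold Prm.wA
  exact LS.capN h.V (LS.ifz (LS.lt01 (LS.const 1) hQ) (LS.const 0)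
    (LS.ifz (LS.eq01 (ls_dt h hQ) hτ) (ls_fA h (ls_dq h hQ)) ha))

theorem ls_wF (h : LSP P C) {d a Q v : α → ℕ} (hd : LS d) (ha : LS a) (hQ : LS Q) (hv : LS v) :
    LS fun z => (P z).wF (d z) (a z) (Q z) (v z) := by
  unfold Prm.wF
  exact LS.ifz hd (LS_accN (ls_dq h hQ)) (LS.mul (LS.eq01 (ls_dq h hQ) (ls_cq h hd))
    (LS.ifz ha (LS.const 1) (LS.eq01 hv (ls_cl h hd ha))))

theorem ls_wN (h : LSP P C) {τ Y d a Q v : α → ℕ} (hτ : LS τ) (hY : LS Y) (hd : LS d)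
    (ha : LS a) (hQ : LS Q) (hv : LS v) :
    LS fun z => (P z).wN (τ z) (Y z) (d z) (a z) (Q z) (v z) := by
  unfold Prm.wN
  have hdq := ls_dq h hQ
  have hdp := ls_dp h hQ
  have hdt := ls_dt h hQ
  have hN := ls_fN h hdq (LS.dig (LS.const 2) hY hdp) hv
  have hK := ls_fK h hdq
  exact LS.capN h.V (LS.ifz (LS.lt01 (LS.const 1) hQ) hQ (LS.ifz (LS.eq01 hdt hτ)
    (LS.ifz (LS.mul (ls_fA h hdq) hN) (LS.const 0)
      (LS.ifz (LS.mul hK (LS.eq01 hdp h.u))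
        (ls_enc h hN (LS.add hdp hK) (LS.add hdt (LS.const 1))) (LS.const 0)))
    (ls_wF h hd ha hQ hv)))

theorem ls_wQ (h : LSP P C) {f : α → ℕ} (hf : LS f) : LS fun z => (P z).wQ (f z) := by
  unfold Prm.wQ
  exact LS.ifz (LS.lt01 (LS.const 1) hf) (LS.const 1)
    (LS.sub (LS.const 1) (ls_fG h (ls_dq h hf)))

theorem ls_wW (h : LSP P C) {x f c : α → ℕ} (hx : LS x) (hf : LS f) (hc : LS c) :
    LS fun z => (P z).wW (x z) (f z) (c z) := by
  unfold Prm.wW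
  exact LS.capN h.Z (LS.ifz (LS.lt01 (LS.const 1) hf) hc
    (LS.ifz (LS.mul (ls_fG h (ls_dq h hf)) (LS.sub (LS.const 1) (ls_ro hx))) hc
      (ls_fW h (ls_dq h hf) hx hc)))

theorem ls_w0 (h : LSP P C) {c : α → ℕ} (hc : LS c) : LS fun z => (P z).w0 (c z) := by
  unfold Prm.w0
  exact LS.capN h.V (ls_enc h (ls_cq h hc) (LS.const 0) (LS.const 0))

theorem ls_cz (h : LSP P C) : LS fun z => (P z).cz := by
  unfold Prm.cz
  exact LS.add (LS.const 2) (LS.mul (ls_pS h) (LS.pow_of_le (ls_bd h) h.E h.hC h.bcz))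

end

theorem lsw : LSW_stmt := by
  intro α _ P C c d Y τ a h hc hd hY hτ ha
  have p1 : LS fun z : α × ℕ => z.1 := LS.fst
  have p2 : LS fun z : α × ℕ × ℕ => z.1 := LS.fst
  have p3 : LS fun z : α × ℕ × ℕ × ℕ => z.1 := LS.fst
  have h1 := lsp_comp h p1
  have h2 := lsp_comp h p2
  have h3 := lsp_comp h p3
  refine ⟨?_, ?_, ?_, ?_, ls_w0 h hc, ?_, ls_cz h⟩
  · exact ls_wA h1 (LS.comp (g := τ) hτ p1) (LS.comp (g := a) ha p1) LS.snd
  · exact ls_wN h2 (LS.comp (g := τ) hτ p2) (LS.comp (g := Y) hY p2) (LS.comp (g := d) hd p2)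
      (LS.comp (g := a) ha p2) (by fun_prop) (by fun_prop)
  · exact ls_wQ h1 LS.snd
  · exact ls_wW h3 (by fun_prop) (by fun_prop) (by fun_prop)
  · exact ls_cm h1 (LS.comp (g := c) hc p1) LS.snd

end Pool.Agent.Helper56.Sus
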